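import Mathlib
import Pool.Agent.Lib.MP_77d395_lc.Ext
import Pool.Agent.Lib.MP_77d395_lc.Forcing

/-!
# It is consistent that countably compact functional extensions exist
-/

open Pool.Agent.Lib.MP_77d395_lc
open scoped Cardinal

namespace Pool.Agent.Results.MP_77d395_lc.ConsistentCountablyCompact

/-- (1) There is a linearly ordered set `Ω` with countable initial segments such that each
condition of the poset of countable partial functions from `Ω` to the reals forces that there is a
sequence of reals, indexed by `Ω`, which contains all reals.  (2) If there is a sequence of reals,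
indexed by a linearly ordered set `Ω` with countable initial segments, which contains all reals,
then there is a countably compact functional extension of `ℕ`. -/
theorem result :
    (∃ (Ω : Type) (_ : LinearOrder Ω), (∀ ξ : Ω, (Set.Iio ξ).Countable) ∧
      ∀ p : Coll Ω, fEnum (Coll Ω) Ω p) ∧
    ∀ (Ω : Type) [LinearOrder Ω], (∀ ξ : Ω, (Set.Iio ξ).Countable) →
      (∃ E : Set (Ω × ℕ), ∀ x : Set ℕ, ∃ ξ : Ω, ∀ n : ℕ, n ∈ x ↔ (ξ, n) ∈ E) →
      ∃ E : FunctionalExtension ℕ 0 1, E.IsCountablyCompact := by
  refine ⟨⟨(ℵ₁ : Cardinal.{0}).ord.ToType, inferInstance, fun ξ => ?_, fun p => ?_⟩, ?_⟩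
  · have h := Cardinal.mk_Iio_toType_ord_lt ξ
    rw [Cardinal.lt_aleph_one_iff, Cardinal.mk_le_aleph0_iff] at h
    exact h
  · have : Uncountable (ℵ₁ : Cardinal.{0}).ord.ToType := by
      rw [← Cardinal.aleph0_lt_mk_iff, Cardinal.mk_ord_toType]
      exact Cardinal.aleph0_lt_aleph_one
    exact Coll.fEnum p
  · rintro Ω _ hΩ ⟨E, hE⟩
    have hsurj : Function.Surjective (fun (ξ : Ω) => {n : ℕ | (ξ, n) ∈ E}) := by
      intro x
      obtain ⟨ξ, hξ⟩ := hE x
      exact ⟨ξ, Set.ext fun n => (hξ n).symm⟩
    have h1 : 𝔠 ≤ #Ω := by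
      have := Cardinal.mk_le_of_surjective hsurj
      rwa [Cardinal.mk_set, Cardinal.mk_nat, Cardinal.two_power_aleph0] at this
    exact exists_countablyCompact
      (le_antisymm Cardinal.aleph_one_le_continuum (h1.trans (mk_le_aleph_one hΩ)))

end Pool.Agent.Results.MP_77d395_lc.ConsistentCountablyCompact
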